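import Mathlib

/-!
# A 4-regular graph quasi-isometric to the plane, without fortress, and not almost surely invaded

We construct an explicit infinite connected 4-regular simple graph `G`, quasi-isometric to the
square grid, which contains no fortress, and such that 2-neighbour bootstrap percolation started
from a Bernoulli configuration of small positive density does not almost surely invade `G`.

The vertices are `((i, j), s, a)` with `(i, j) ∈ ℤ²` (the cell), and `s, a` Booleans. The vertices
with `s = true` (the outgoing ones) of a cell are joined to both vertices with `s = false` (the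
incoming ones) of the same cell, and `((i, j), true, a)` is joined to `((i + 1, j), false, a)` and
`((i, j + 1), false, a)`. A finite healthy set is eroded from its upper right corner, but a
bi-infinite oriented path of healthy cells is stable; such paths exist with positive probability by
a Peierls argument for oriented percolation.
-/

set_option autoImplicit false

open MeasureTheory ProbabilityTheory unitInterval
open scoped ENNReal NNReal

namespace Pool.Agent.Results.MP_38c1f8_pr.InvasionFails

section defs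

variable {V W : Type*}

open Classical in
/-- The 2-neighbour contamination map of the graph `G`; `true` means infected. -/
noncomputable def contaminate (G : SimpleGraph V) (c : V → Bool) : V → Bool := fun v =>
  decide (c v = true ∨ 2 ≤ {w | G.Adj w v ∧ c w = true}.encard)

/-- The invasion set: the configurations for which every vertex is eventually infected. -/
def invasion (G : SimpleGraph V) : Set (V → Bool) :=
  {c | ∀ v, ∃ n : ℕ, (contaminate G)^[n] c v = true}

/-- A fortress: a finite nonempty set of vertices each of which has at most one neighbour outside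
the set. -/
def IsFortress (G : SimpleGraph V) (S : Set V) : Prop :=
  S.Finite ∧ S.Nonempty ∧ ∀ v ∈ S, {w | G.Adj v w ∧ w ∉ S}.encard ≤ 1

/-- The product Bernoulli measure: each vertex is independently `true` with probability `p` and
`false` with probability `1 - p`. -/
noncomputable def bern (V : Type*) (p : unitInterval) : Measure (V → Bool) :=
  Measure.infinitePi (fun _ : V => bernoulliMeasure true false p)

/-- The square grid `ℤ²`. -/
def grid : SimpleGraph (ℤ × ℤ) where
  Adj x y := |x.1 - y.1| + |x.2 - y.2| = 1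
  symm := ⟨fun x y h => by rw [abs_sub_comm y.1, abs_sub_comm y.2]; exact h⟩
  loopless := ⟨fun x h => by simp at h⟩

/-- Two graphs, with their graph metrics, are quasi-isometric. -/
def QuasiIsometric (G : SimpleGraph V) (H : SimpleGraph W) : Prop :=
  ∃ (f : V → W) (A B : ℝ), 1 ≤ A ∧ 0 ≤ B ∧
    (∀ u v, (G.dist u v : ℝ) / A - B ≤ H.dist (f u) (f v) ∧
      (H.dist (f u) (f v) : ℝ) ≤ A * G.dist u v + B) ∧
    ∀ w, ∃ v, (H.dist w (f v) : ℝ) ≤ B

end defs

/-- `out x a y b`: the outgoing vertex `a` of the cell `x` is joined to the incoming vertex `b` of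
the cell `y`. -/
def out (x : ℤ × ℤ) (a : Bool) (y : ℤ × ℤ) (b : Bool) : Prop :=
  y = x ∨ (b = a ∧ (y = x + (1, 0) ∨ y = x + (0, 1)))

/-- The graph. -/
def G0 : SimpleGraph ((ℤ × ℤ) × Bool × Bool) where
  Adj u v := (u.2.1 = true ∧ v.2.1 = false ∧ out u.1 u.2.2 v.1 v.2.2) ∨
    (u.2.1 = false ∧ v.2.1 = true ∧ out v.1 v.2.2 u.1 u.2.2)
  symm := ⟨fun u v h => by tauto⟩
  loopless := ⟨fun u h => by
    rcases h with ⟨h1, h2, -⟩ | ⟨h1, h2, -⟩ <;> simp [h1] at h2⟩

section geometry

lemma adj_tf {x y : ℤ × ℤ} {a b : Bool} : G0.Adj (x, true, a) (y, false, b) ↔ out x a y b := by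
  simp [G0]

lemma adj_ft {x y : ℤ × ℤ} {a b : Bool} : G0.Adj (x, false, a) (y, true, b) ↔ out y b x a := by
  simp [G0]

lemma adj_tt {x y : ℤ × ℤ} {a b : Bool} : ¬ G0.Adj (x, true, a) (y, true, b) := by
  simp [G0]

lemma adj_ff {x y : ℤ × ℤ} {a b : Bool} : ¬ G0.Adj (x, false, a) (y, false, b) := by
  simp [G0]

lemma regular (v : (ℤ × ℤ) × Bool × Bool) : (G0.neighborSet v).encard = 4 := by
  obtain ⟨x, s, a⟩ := v
  cases s
  · have h : G0.neighborSet (x, false, a) =
        (({(x, true, false), (x, true, true), (x - (1, 0), true, a), (x - (0, 1), true, a)} :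
          Finset ((ℤ × ℤ) × Bool × Bool)) : Set ((ℤ × ℤ) × Bool × Bool)) := by
      ext ⟨y, t, b⟩
      simp only [SimpleGraph.mem_neighborSet, Finset.coe_insert, Finset.coe_singleton,
        Set.mem_insert_iff, Set.mem_singleton_iff, Prod.mk.injEq]
      cases t
      · simp [adj_ff]
      · rw [adj_ft]
        unfold out
        rw [eq_comm (a := a) (b := b), ← sub_eq_iff_eq_add, ← sub_eq_iff_eq_add,
          eq_comm (a := x) (b := y), eq_comm (a := x - (1, 0)), eq_comm (a := x - (0, 1))]
        cases b <;> cases a <;> simp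
    rw [h, Set.encard_coe_eq_coe_finsetCard]
    obtain ⟨i, j⟩ := x
    rw [Finset.card_insert_of_notMem, Finset.card_insert_of_notMem, Finset.card_insert_of_notMem,
      Finset.card_singleton]
    · rfl
    · simp
    · simp only [Finset.mem_insert, Finset.mem_singleton, Prod.mk.injEq, Prod.mk_sub_mk]
      omega
    · simp only [Finset.mem_insert, Finset.mem_singleton, Prod.mk.injEq, Prod.mk_sub_mk]
      simp
      omega
  · have h : G0.neighborSet (x, true, a) =
        (({(x, false, false), (x, false, true), (x + (1, 0), false, a), (x + (0, 1), false, a)} :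
          Finset ((ℤ × ℤ) × Bool × Bool)) : Set ((ℤ × ℤ) × Bool × Bool)) := by
      ext ⟨y, t, b⟩
      simp only [SimpleGraph.mem_neighborSet, Finset.coe_insert, Finset.coe_singleton,
        Set.mem_insert_iff, Set.mem_singleton_iff, Prod.mk.injEq]
      cases t
      · rw [adj_tf]
        unfold out
        cases b <;> cases a <;> simp
      · simp [adj_tt]
    rw [h, Set.encard_coe_eq_coe_finsetCard]
    obtain ⟨i, j⟩ := x
    rw [Finset.card_insert_of_notMem, Finset.card_insert_of_notMem, Finset.card_insert_of_notMem,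
      Finset.card_singleton]
    · rfl
    · simp
    · simp
    · simp

/-- walks inside a cell -/
lemma walk_cell (x : ℤ × ℤ) (s a t b : Bool) :
    ∃ p : G0.Walk (x, s, a) (x, t, b), p.length ≤ 2 := by
  cases s <;> cases t
  · have h1 : G0.Adj (x, false, a) (x, true, b) := adj_ft.2 (Or.inl rfl)
    have h2 : G0.Adj (x, true, b) (x, false, b) := adj_tf.2 (Or.inl rfl)
    exact ⟨.cons h1 (.cons h2 .nil), by simp⟩
  · have h1 : G0.Adj (x, false, a) (x, true, b) := adj_ft.2 (Or.inl rfl)
    exact ⟨.cons h1 .nil, by simp⟩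
  · have h1 : G0.Adj (x, true, a) (x, false, b) := adj_tf.2 (Or.inl rfl)
    exact ⟨.cons h1 .nil, by simp⟩
  · have h1 : G0.Adj (x, true, a) (x, false, b) := adj_tf.2 (Or.inl rfl)
    have h2 : G0.Adj (x, false, b) (x, true, b) := adj_ft.2 (Or.inl rfl)
    exact ⟨.cons h1 (.cons h2 .nil), by simp⟩

lemma grid_adj_iff {x y : ℤ × ℤ} (h : grid.Adj x y) :
    y = x + (1, 0) ∨ y = x + (0, 1) ∨ x = y + (1, 0) ∨ x = y + (0, 1) := by
  obtain ⟨i, j⟩ := x
  obtain ⟨k, l⟩ := y
  have h' : |i - k| + |j - l| = 1 := h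
  simp only [Prod.mk_add_mk, Prod.mk.injEq]
  rcases abs_cases (i - k) with ⟨h1, h2⟩ | ⟨h1, h2⟩ <;>
    rcases abs_cases (j - l) with ⟨h3, h4⟩ | ⟨h3, h4⟩ <;> omega

lemma walk_lift {x y : ℤ × ℤ} (q : grid.Walk x y) : ∀ s a t b : Bool,
    ∃ p : G0.Walk (x, s, a) (y, t, b), p.length ≤ 3 * q.length + 2 := by
  induction q with
  | nil => intro s a t b; simpa using walk_cell _ s a t b
  | @cons u v w h q ih =>
    intro s a t b
    have key : ∃ s' : Bool, G0.Adj (u, s', false) (v, !s', false) := by
      rcases grid_adj_iff h with h | h | h | h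
      · exact ⟨true, adj_tf.2 (Or.inr ⟨rfl, Or.inl h⟩)⟩
      · exact ⟨true, adj_tf.2 (Or.inr ⟨rfl, Or.inr h⟩)⟩
      · exact ⟨false, adj_ft.2 (Or.inr ⟨rfl, Or.inl h⟩)⟩
      · exact ⟨false, adj_ft.2 (Or.inr ⟨rfl, Or.inr h⟩)⟩
    obtain ⟨s', hs'⟩ := key
    obtain ⟨p1, hp1⟩ := walk_cell u s a s' false
    obtain ⟨p2, hp2⟩ := ih (!s') false t b
    refine ⟨p1.append (.cons hs' p2), ?_⟩
    rw [SimpleGraph.Walk.length_append, SimpleGraph.Walk.length_cons, SimpleGraph.Walk.length_cons]
    omega

lemma walk_proj {u v : (ℤ × ℤ) × Bool × Bool} (p : G0.Walk u v) :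
    ∃ q : grid.Walk u.1 v.1, q.length ≤ p.length := by
  induction p with
  | nil => exact ⟨.nil, by simp⟩
  | @cons u v w h p ih =>
    obtain ⟨q, hq⟩ := ih
    obtain ⟨⟨i, j⟩, s, a⟩ := u
    obtain ⟨⟨k, l⟩, t, b⟩ := v
    have key : (i, j) = (k, l) ∨ grid.Adj (i, j) (k, l) := by
      have e1 : ∀ i j : ℤ, grid.Adj (i, j) ((i, j) + (1, 0)) := by
        intro i j; simp [grid]
      have e2 : ∀ i j : ℤ, grid.Adj (i, j) ((i, j) + (0, 1)) := by
        intro i j; simp [grid]
      rcases h with ⟨-, -, h⟩ | ⟨-, -, h⟩ <;> rcases h with h | ⟨-, h | h⟩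
      · exact Or.inl h.symm
      · right
        simp only at h
        rw [h]
        exact e1 i j
      · right
        simp only at h
        rw [h]
        exact e2 i j
      · exact Or.inl h
      · right
        simp only at h
        rw [h]
        exact (e1 k l).symm
      · right
        simp only at h
        rw [h]
        exact (e2 k l).symm
    rcases key with h | h
    · rw [Prod.mk.injEq] at h
      obtain ⟨rfl, rfl⟩ := h
      exact ⟨q, by rw [SimpleGraph.Walk.length_cons]; omega⟩
    · exact ⟨.cons h q, by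
        rw [SimpleGraph.Walk.length_cons, SimpleGraph.Walk.length_cons]; omega⟩

lemma grid_connected : grid.Connected := by
  have h0 : ∀ i : ℤ, grid.Reachable (0, 0) (i, 0) := by
    intro i
    induction i using Int.induction_on with
    | zero => exact SimpleGraph.Reachable.refl _
    | succ i ih =>
      refine ih.trans (SimpleGraph.Adj.reachable ?_)
      simp [grid]
    | pred i ih =>
      refine ih.trans (SimpleGraph.Adj.reachable ?_)
      simp [grid]
  have h1 : ∀ i j : ℤ, grid.Reachable (0, 0) (i, j) := by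
    intro i j
    induction j using Int.induction_on with
    | zero => exact h0 i
    | succ j ih =>
      refine ih.trans (SimpleGraph.Adj.reachable ?_)
      simp [grid]
    | pred j ih =>
      refine ih.trans (SimpleGraph.Adj.reachable ?_)
      simp [grid]
  have : Nonempty (ℤ × ℤ) := ⟨0⟩
  exact SimpleGraph.Connected.mk fun x y => (h1 x.1 x.2).symm.trans (h1 y.1 y.2)

lemma G0_connected : G0.Connected := by
  have : Nonempty ((ℤ × ℤ) × Bool × Bool) := ⟨(0, true, true)⟩
  refine SimpleGraph.Connected.mk fun u v => ?_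
  obtain ⟨q⟩ := grid_connected.preconnected u.1 v.1
  obtain ⟨p, -⟩ := walk_lift q u.2.1 u.2.2 v.2.1 v.2.2
  exact ⟨p⟩

lemma G0_qi : QuasiIsometric G0 grid := by
  refine ⟨fun u => u.1, 3, 2, by norm_num, by norm_num, fun u v => ⟨?_, ?_⟩, fun w => ?_⟩
  · obtain ⟨q, hq⟩ := grid_connected.exists_walk_length_eq_dist u.1 v.1
    obtain ⟨p, hp⟩ := walk_lift q u.2.1 u.2.2 v.2.1 v.2.2
    have h1 : G0.dist u v ≤ 3 * grid.dist u.1 v.1 + 2 := by
      rw [← hq]
      exact (SimpleGraph.dist_le p).trans hp
    have h2 : (G0.dist u v : ℝ) ≤ 3 * grid.dist u.1 v.1 + 2 := by exact_mod_cast h1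
    linarith
  · obtain ⟨p, hp⟩ := G0_connected.exists_walk_length_eq_dist u v
    obtain ⟨q, hq⟩ := walk_proj p
    have h1 : grid.dist u.1 v.1 ≤ G0.dist u v := by
      rw [← hp]
      exact (SimpleGraph.dist_le q).trans hq
    have h2 : (grid.dist u.1 v.1 : ℝ) ≤ G0.dist u v := by exact_mod_cast h1
    have h3 : (0 : ℝ) ≤ G0.dist u v := Nat.cast_nonneg _
    linarith
  · refine ⟨(w, true, true), ?_⟩
    simp

lemma two_le_encard {α : Type*} {s : Set α} {a b : α} (ha : a ∈ s) (hb : b ∈ s) (hab : a ≠ b) :
    2 ≤ s.encard := by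
  rw [← Set.encard_pair hab]
  exact Set.encard_le_encard (by
    intro x hx
    rcases hx with rfl | rfl
    · exact ha
    · exact hb)

lemma no_fortress (S : Set ((ℤ × ℤ) × Bool × Bool)) : ¬ IsFortress G0 S := by
  rintro ⟨hfin, hne, hS⟩
  obtain ⟨⟨x, s, a⟩, hv, hmax⟩ := Set.exists_max_image S (fun u => u.1.1 + u.1.2) hfin hne
  have hout : ∀ b t : Bool, ∀ d : ℤ × ℤ, 0 < d.1 + d.2 → (x + d, t, b) ∉ S := by
    intro b t d hd hmem
    have := hmax _ hmem
    simp only [Prod.fst_add, Prod.snd_add] at this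
    omega
  have htrue : ∀ b : Bool, (x, true, b) ∉ S := by
    intro b hb
    have h1 := hS _ hb
    have h2 : 2 ≤ {w | G0.Adj (x, true, b) w ∧ w ∉ S}.encard := by
      refine two_le_encard (a := (x + (1, 0), false, b)) (b := (x + (0, 1), false, b)) ?_ ?_ ?_
      · exact ⟨adj_tf.2 (Or.inr ⟨rfl, Or.inl rfl⟩), hout _ _ _ (by norm_num)⟩
      · exact ⟨adj_tf.2 (Or.inr ⟨rfl, Or.inr rfl⟩), hout _ _ _ (by norm_num)⟩
      · simp
    exact absurd (h2.trans h1) (by decide)
  cases s
  · have h1 := hS _ hv
    have h2 : 2 ≤ {w | G0.Adj (x, false, a) w ∧ w ∉ S}.encard := by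
      refine two_le_encard (a := (x, true, false)) (b := (x, true, true)) ?_ ?_ ?_
      · exact ⟨adj_ft.2 (Or.inl rfl), htrue _⟩
      · exact ⟨adj_ft.2 (Or.inl rfl), htrue _⟩
      · simp
    exact absurd (h2.trans h1) (by decide)
  · exact htrue _ hv

end geometry

section contour

/-- the four unit vectors: east, north, west, south -/
def vec : Fin 4 → ℤ × ℤ := ![(1, 0), (0, 1), (-1, 0), (0, -1)]

/-- corner of the cell from which the side with outer normal `d` starts -/
def off : Fin 4 → ℤ × ℤ := ![(1, 0), (1, 1), (0, 1), (0, 0)]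

lemma off_succ (d : Fin 4) : off (d + 1) = off d + vec (d + 1) := by
  fin_cases d <;> decide

lemma vec_two (d : Fin 4) : vec (d + 1 + 1) = - vec d := by
  fin_cases d <;> decide

lemma off_pred (d : Fin 4) : off (d - 1) + vec d = off d := by
  fin_cases d <;> decide

variable (C : Finset (ℤ × ℤ))

/-- next boundary edge, with `C` on the left -/
def next (e : (ℤ × ℤ) × Fin 4) : (ℤ × ℤ) × Fin 4 :=
  if e.1 + vec (e.2 + 1) ∉ C then (e.1, e.2 + 1)
  else if e.1 + vec (e.2 + 1) + vec e.2 ∉ C then (e.1 + vec (e.2 + 1), e.2)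
  else (e.1 + vec (e.2 + 1) + vec e.2, e.2 - 1)

/-- boundary edges -/
def IsB (e : (ℤ × ℤ) × Fin 4) : Prop := e.1 ∈ C ∧ e.1 + vec e.2 ∉ C

lemma next_isB {e : (ℤ × ℤ) × Fin 4} (h : IsB C e) : IsB C (next C e) := by
  obtain ⟨c, d⟩ := e
  obtain ⟨h1, h2⟩ := h
  simp only at h1 h2
  unfold next
  simp only
  split_ifs with h3 h4
  · refine ⟨?_, ?_⟩
    · exact h4
    · simp only
      have h5 : vec (d + 1) = - vec (d - 1) := by
        have := vec_two (d - 1)
        rwa [sub_add_cancel] at this
      have h6 : c + vec (d + 1) + vec d + vec (d - 1) = c + vec d := by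
        rw [h5]; abel
      rw [h6]
      exact h2
  · exact ⟨h3, h4⟩
  · exact ⟨h1, h3⟩

lemma next_tail (e : (ℤ × ℤ) × Fin 4) :
    (next C e).1 + off (next C e).2 = e.1 + off e.2 + vec (e.2 + 1) := by
  obtain ⟨c, d⟩ := e
  unfold next
  simp only
  split_ifs with h3 h4
  · simp only
    rw [← off_pred d]
    abel
  · simp only
    abel
  · simp only
    rw [off_succ]
    abel

lemma next_inj {e e' : (ℤ × ℤ) × Fin 4} (h : IsB C e) (h' : IsB C e')
    (heq : next C e = next C e') : e = e' := by
  obtain ⟨c, d⟩ := e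
  obtain ⟨c', d'⟩ := e'
  obtain ⟨h1, h2⟩ := h
  obtain ⟨h1', h2'⟩ := h'
  simp only at h1 h2 h1' h2'
  have aux12 : ∀ c d c' d', c + vec d ∉ C → c' ∈ C →
      (c, d + 1) = (c' + vec (d' + 1), d') → False := by
    intro c d c' d' hcd hc' h
    rw [Prod.mk.injEq] at h
    obtain ⟨h5, rfl⟩ := h
    apply hcd
    rw [h5, vec_two, neg_add_cancel_right]
    exact hc'
  have aux13 : ∀ c d c' d', c + vec d ∉ C → c' + vec (d' + 1) ∈ C →
      (c, d + 1) = (c' + vec (d' + 1) + vec d', d' - 1) → False := by
    intro c d c' d' hcd hc' h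
    rw [Prod.mk.injEq] at h
    obtain ⟨h5, h6⟩ := h
    have h7 : d' = d + 1 + 1 := (eq_sub_iff_add_eq.1 h6).symm
    apply hcd
    have h8 : c + vec d = c' + vec (d' + 1) := by
      rw [h5, h7, vec_two d]
      abel
    rw [h8]
    exact hc'
  have aux23 : ∀ c d c' d', c + vec d ∉ C → c' ∈ C →
      (c + vec (d + 1), d) = (c' + vec (d' + 1) + vec d', d' - 1) → False := by
    intro c d c' d' hcd hc' h
    rw [Prod.mk.injEq] at h
    obtain ⟨h5, h6⟩ := h
    have h7 : d' = d + 1 := (eq_sub_iff_add_eq.1 h6).symm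
    apply hcd
    have h8 : c + vec d = c' := by
      rw [h7, vec_two d] at h5
      have : c = c' - vec d := by
        have h9 : c + vec (d + 1) - vec (d + 1) = c' + -vec d + vec (d + 1) - vec (d + 1) := by
          rw [h5]
        rw [add_sub_cancel_right, add_sub_cancel_right] at h9
        rw [h9]; abel
      rw [this]; abel
    rw [h8]
    exact hc'
  unfold next at heq
  simp only at heq
  by_cases a1 : c + vec (d + 1) ∈ C
  · by_cases a2 : c + vec (d + 1) + vec d ∈ C
    · simp only [a1, a2, not_true_eq_false, if_false] at heq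
      by_cases b1 : c' + vec (d' + 1) ∈ C
      · by_cases b2 : c' + vec (d' + 1) + vec d' ∈ C
        · simp only [b1, b2, not_true_eq_false, if_false, Prod.mk.injEq] at heq
          obtain ⟨h5, h6⟩ := heq
          have h7 : d = d' := sub_left_injective h6
          subst h7
          rw [Prod.mk.injEq]
          exact ⟨add_right_cancel (add_right_cancel h5), rfl⟩
        · simp only [b1, b2, not_true_eq_false, if_false, not_false_eq_true, if_true] at heq
          exact (aux23 c' d' c d h2' h1 heq.symm).elim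
      · simp only [b1, not_false_eq_true, if_true] at heq
        exact (aux13 c' d' c d h2' a1 heq.symm).elim
    · simp only [a1, a2, not_true_eq_false, if_false, not_false_eq_true, if_true] at heq
      by_cases b1 : c' + vec (d' + 1) ∈ C
      · by_cases b2 : c' + vec (d' + 1) + vec d' ∈ C
        · simp only [b1, b2, not_true_eq_false, if_false] at heq
          exact (aux23 c d c' d' h2 h1' heq).elim
        · simp only [b1, b2, not_true_eq_false, if_false, not_false_eq_true, if_true,
            Prod.mk.injEq] at heq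
          obtain ⟨h5, rfl⟩ := heq
          rw [Prod.mk.injEq]
          exact ⟨add_right_cancel h5, rfl⟩
      · simp only [b1, not_false_eq_true, if_true] at heq
        exact (aux12 c' d' c d h2' h1 heq.symm).elim
  · simp only [a1, not_false_eq_true, if_true] at heq
    by_cases b1 : c' + vec (d' + 1) ∈ C
    · by_cases b2 : c' + vec (d' + 1) + vec d' ∈ C
      · simp only [b1, b2, not_true_eq_false, if_false] at heq
        exact (aux13 c d c' d' h2 b1 heq).elim
      · simp only [b1, b2, not_true_eq_false, if_false, not_false_eq_true, if_true] at heq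
        exact (aux12 c d c' d' h2 h1' heq).elim
    · simp only [b1, not_false_eq_true, if_true, Prod.mk.injEq] at heq
      obtain ⟨h5, h6⟩ := heq
      rw [Prod.mk.injEq]
      exact ⟨h5, add_left_injective 1 h6⟩

/-- a word of directions extended by `0` -/
def ext {L : ℕ} (w : Fin L → Fin 4) : ℕ → Fin 4 := fun i => if h : i < L then w ⟨i, h⟩ else 0

/-- position of the corner after `k` sides -/
def pos (u : ℕ → Fin 4) (k : ℕ) : ℤ × ℤ := ∑ i ∈ Finset.range k, vec (u i + 1)

/-- the cell adjacent to the `k`-th side on the outer side -/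
def outer (u : ℕ → Fin 4) (k : ℕ) : ℤ × ℤ := pos u k - off (u k) + vec (u k)

/-- the cells adjacent on the outer side to the east and north sides -/
def cells (L : ℕ) (u : ℕ → Fin 4) : Finset (ℤ × ℤ) :=
  ((Finset.range L).filter (fun k => u k = 0 ∨ u k = 1)).image (outer u)

lemma pos_congr {u v : ℕ → Fin 4} {k : ℕ} (h : ∀ i < k, u i = v i) : pos u k = pos v k := by
  unfold pos
  exact Finset.sum_congr rfl fun i hi => by rw [h i (Finset.mem_range.1 hi)]

lemma cells_congr {u v : ℕ → Fin 4} {L : ℕ} (h : ∀ i < L, u i = v i) :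
    cells L u = cells L v := by
  have h1 : (Finset.range L).filter (fun k => u k = 0 ∨ u k = 1) =
      (Finset.range L).filter (fun k => v k = 0 ∨ v k = 1) := by
    apply Finset.filter_congr
    intro k hk
    rw [h k (Finset.mem_range.1 hk)]
  unfold cells
  rw [h1]
  apply Finset.image_congr
  intro k hk
  have hk' : k < L := Finset.mem_range.1 (Finset.mem_filter.1 hk).1
  unfold outer
  rw [h k hk', pos_congr fun i hi => h i (hi.trans hk')]

/-- **The contour.** -/
lemma exists_contour (h0 : (0 : ℤ × ℤ) ∈ C) (h1 : ((0 : ℤ), (-1 : ℤ)) ∉ C) :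
    ∃ (L : ℕ) (w : Fin (L + 1) → Fin 4), L + 1 ≤ 4 * (cells (L + 1) (ext w)).card ∧
      ∀ x ∈ cells (L + 1) (ext w), x ∉ C ∧ (x - (1, 0) ∈ C ∨ x - (0, 1) ∈ C) := by
  classical
  -- the finite set of boundary edges
  let B := {e : (ℤ × ℤ) × Fin 4 // IsB C e}
  have hfin : Finite B := by
    have : {e : (ℤ × ℤ) × Fin 4 | IsB C e} ⊆ ((C ×ˢ (Finset.univ : Finset (Fin 4)) :
        Finset ((ℤ × ℤ) × Fin 4)) : Set ((ℤ × ℤ) × Fin 4)) := by
      intro e he
      rw [Finset.mem_coe, Finset.mem_product]
      exact ⟨he.1, Finset.mem_univ _⟩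
    exact (Finset.finite_toSet _).subset this
  let f : B → B := fun e => ⟨next C e.1, next_isB C e.2⟩
  have hf : Function.Injective f := by
    intro e e' h
    exact Subtype.ext (next_inj C e.2 e'.2 (congrArg Subtype.val h))
  let e0 : B := ⟨(0, 3), h0, by simpa [vec] using h1⟩
  set L := Function.minimalPeriod f e0 with hL
  have hLpos : 0 < L :=
    Function.minimalPeriod_pos_of_mem_periodicPts (hf.mem_periodicPts e0)
  let e : ℕ → (ℤ × ℤ) × Fin 4 := fun k => (f^[k] e0).1
  have he_succ : ∀ k, e (k + 1) = next C (e k) := by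
    intro k
    simp only [e, Function.iterate_succ_apply']
    rfl
  have he_B : ∀ k, IsB C (e k) := fun k => (f^[k] e0).2
  let u : ℕ → Fin 4 := fun k => (e k).2
  have htail : ∀ k, (e k).1 + off (u k) = pos u k := by
    intro k
    induction k with
    | zero => simp [e, u, e0, off, pos]
    | succ k ih =>
      unfold pos at ih ⊢
      rw [Finset.sum_range_succ, ← ih]
      simp only [u]
      rw [he_succ, next_tail]
  have hcell : ∀ k, (e k).1 = pos u k - off (u k) := fun k => eq_sub_of_add_eq (htail k)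
  have hperiod : e L = e 0 := by
    simp only [e]
    rw [hL, Function.iterate_minimalPeriod]
    rfl
  have hposL : pos u L = 0 := by
    rw [← htail L]
    simp only [u]
    rw [hperiod]
    simp [e, e0, off]
  have hinj : ∀ k < L, ∀ l < L, e k = e l → k = l := by
    intro k hk l hl hkl
    exact Function.iterate_injOn_Iio_minimalPeriod (f := f) (x := e0) hk hl (Subtype.ext hkl)
  -- half of the sides are east or north
  have hcount : L = 2 * ((Finset.range L).filter (fun k => u k = 0 ∨ u k = 1)).card := by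
    have hpt : ∀ d : Fin 4, (1 : ℤ) = 2 * (if d = 0 ∨ d = 1 then 1 else 0) +
        (vec (d + 1)).1 - (vec (d + 1)).2 := by
      intro d
      fin_cases d <;> simp [vec]
    have h2 : (L : ℤ) = ∑ i ∈ Finset.range L, (2 * (if u i = 0 ∨ u i = 1 then (1 : ℤ) else 0) +
        (vec (u i + 1)).1 - (vec (u i + 1)).2) := by
      rw [← Finset.sum_congr rfl fun i _ => hpt (u i)]
      simp
    have h3 : (∑ i ∈ Finset.range L, (vec (u i + 1)).1) = 0 := by
      have := congrArg Prod.fst hposL
      unfold pos at this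
      rwa [Prod.fst_sum] at this
    have h4 : (∑ i ∈ Finset.range L, (vec (u i + 1)).2) = 0 := by
      have := congrArg Prod.snd hposL
      unfold pos at this
      rwa [Prod.snd_sum] at this
    rw [Finset.sum_sub_distrib, Finset.sum_add_distrib, h3, h4, ← Finset.mul_sum,
      Finset.sum_boole] at h2
    have h5 : (L : ℤ) = 2 * ((Finset.range L).filter (fun k => u k = 0 ∨ u k = 1)).card := by
      rw [h2]; simp
    exact_mod_cast h5
  have hcard : L ≤ 4 * (cells L u).card := by
    have h2 : ((Finset.range L).filter (fun k => u k = 0 ∨ u k = 1)).card ≤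
        2 * (cells L u).card := by
      apply Finset.card_le_mul_card_image
      intro x _
      have h3 : Finset.card ({0, 1} : Finset (Fin 4)) = 2 := by decide
      rw [← h3]
      apply Finset.card_le_card_of_injOn u
      · intro k hk
        simp only [Finset.coe_filter, Finset.mem_filter, Set.mem_ofPred_eq] at hk
        simpa using hk.1.2
      · intro k hk l hl hkl
        simp only [Finset.coe_filter, Finset.mem_filter, Set.mem_ofPred_eq,
          Finset.mem_range] at hk hl
        apply hinj k hk.1.1 l hl.1.1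
        have h4 : outer u k = outer u l := by rw [hk.2, hl.2]
        unfold outer at h4
        rw [← hcell, ← hcell, hkl] at h4
        exact Prod.ext (add_right_cancel h4) hkl
    omega
  have hmem : ∀ x ∈ cells L u, x ∉ C ∧ (x - (1, 0) ∈ C ∨ x - (0, 1) ∈ C) := by
    intro x hx
    unfold cells at hx
    rw [Finset.mem_image] at hx
    obtain ⟨k, hk, rfl⟩ := hx
    rw [Finset.mem_filter] at hk
    obtain ⟨hB1, hB2⟩ := he_B k
    unfold outer
    rw [← hcell]
    refine ⟨hB2, ?_⟩
    rcases hk.2 with h | h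
    · left
      have : (e k).1 + vec (u k) - (1, 0) = (e k).1 := by
        rw [h]; simp [vec]
      rw [this]
      exact hB1
    · right
      have : (e k).1 + vec (u k) - (0, 1) = (e k).1 := by
        rw [h]; simp [vec]
      rw [this]
      exact hB1
  obtain ⟨L', hL'⟩ : ∃ L', L = L' + 1 := ⟨L - 1, by omega⟩
  rw [hL'] at hcard hmem
  refine ⟨L', fun i => u i, ?_⟩
  have hext : cells (L' + 1) (ext (fun i : Fin (L' + 1) => u i)) = cells (L' + 1) u := by
    apply cells_congr
    intro i hi
    simp [ext, hi]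
  rw [hext]
  exact ⟨hcard, hmem⟩

end contour

section paths

/-- There is an oriented path of `n` steps of cells in `P` starting at `x`. -/
def fwd (P : ℤ × ℤ → Prop) : ℕ → ℤ × ℤ → Prop
  | 0, x => P x
  | n + 1, x => P x ∧ (fwd P n (x + (1, 0)) ∨ fwd P n (x + (0, 1)))

lemma fwd_self {P : ℤ × ℤ → Prop} {n : ℕ} {x : ℤ × ℤ} (h : fwd P n x) : P x := by
  cases n with
  | zero => exact h
  | succ n => exact h.1

lemma fwd_pred {P : ℤ × ℤ → Prop} : ∀ {n : ℕ} {x : ℤ × ℤ}, fwd P (n + 1) x → fwd P n x := by
  intro n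
  induction n with
  | zero => intro x h; exact h.1
  | succ n ih =>
    intro x h
    exact ⟨h.1, h.2.imp ih ih⟩

open Classical in
/-- cells reached from the origin after `k` steps -/
noncomputable def reach (P : ℤ × ℤ → Prop) : ℕ → Finset (ℤ × ℤ)
  | 0 => {0}
  | k + 1 => ((reach P k).image (fun x => x + (1, 0)) ∪
      (reach P k).image (fun x => x + (0, 1))).filter P

lemma reach_P {P : ℤ × ℤ → Prop} (h0 : P 0) {k : ℕ} {x : ℤ × ℤ} (hx : x ∈ reach P k) : P x := by
  cases k with
  | zero =>
    simp only [reach, Finset.mem_singleton] at hx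
    rw [hx]; exact h0
  | succ k =>
    simp only [reach, Finset.mem_filter] at hx
    exact hx.2

lemma reach_nonneg {P : ℤ × ℤ → Prop} : ∀ {k : ℕ} {x : ℤ × ℤ}, x ∈ reach P k → 0 ≤ x.2 := by
  intro k
  induction k with
  | zero =>
    intro x hx
    simp only [reach, Finset.mem_singleton] at hx
    rw [hx]; rfl
  | succ k ih =>
    intro x hx
    simp only [reach, Finset.mem_filter, Finset.mem_union, Finset.mem_image] at hx
    rcases hx.1 with ⟨y, hy, rfl⟩ | ⟨y, hy, rfl⟩
    · have := ih hy
      simpa using this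
    · have := ih hy
      simp only [Prod.snd_add]
      omega

lemma reach_fwd {P : ℤ × ℤ → Prop} (h0 : P 0) : ∀ {k n : ℕ} {x : ℤ × ℤ}, x ∈ reach P k →
    fwd P n x → fwd P (k + n) 0 := by
  intro k
  induction k with
  | zero =>
    intro n x hx h
    simp only [reach, Finset.mem_singleton] at hx
    rw [zero_add, ← hx]
    exact h
  | succ k ih =>
    intro n x hx h
    simp only [reach, Finset.mem_filter, Finset.mem_union, Finset.mem_image] at hx
    rw [add_assoc, add_comm 1 n]
    rcases hx.1 with ⟨y, hy, rfl⟩ | ⟨y, hy, rfl⟩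
    · exact ih hy ⟨reach_P h0 hy, Or.inl h⟩
    · exact ih hy ⟨reach_P h0 hy, Or.inr h⟩

/-- If the origin is in `P` and there is no path of length `n`, then there is a contour. -/
lemma contour_of_not_fwd {P : ℤ × ℤ → Prop} (h0 : P 0) {n : ℕ} (hn : ¬ fwd P n 0) :
    ∃ (L : ℕ) (w : Fin (L + 1) → Fin 4), L + 1 ≤ 4 * (cells (L + 1) (ext w)).card ∧
      ∀ x ∈ cells (L + 1) (ext w), ¬ P x := by
  classical
  have hempty : ∀ x, x ∉ reach P n := by
    intro x hx
    exact hn (reach_fwd h0 (n := 0) hx (reach_P h0 hx))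
  have hn0 : n ≠ 0 := by
    rintro rfl
    exact hn h0
  let C : Finset (ℤ × ℤ) := (Finset.range n).biUnion (reach P)
  have hC : ∀ x, x ∈ C ↔ ∃ k < n, x ∈ reach P k := by
    intro x
    simp [C]
  have h0C : (0 : ℤ × ℤ) ∈ C := (hC 0).2 ⟨0, Nat.pos_of_ne_zero hn0, by simp [reach]⟩
  have h1C : ((0 : ℤ), (-1 : ℤ)) ∉ C := by
    intro h
    obtain ⟨k, -, hk⟩ := (hC _).1 h
    have := reach_nonneg hk
    simp at this
  obtain ⟨L, w, hL, hw⟩ := exists_contour C h0C h1C
  refine ⟨L, w, hL, fun x hx hPx => ?_⟩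
  obtain ⟨hxC, hx2⟩ := hw x hx
  apply hxC
  have key : ∀ y, y ∈ C → (x = y + (1, 0) ∨ x = y + (0, 1)) → x ∈ C := by
    intro y hy hxy
    obtain ⟨k, hk, hyk⟩ := (hC y).1 hy
    have hxk : x ∈ reach P (k + 1) := by
      simp only [reach, Finset.mem_filter, Finset.mem_union, Finset.mem_image]
      refine ⟨?_, hPx⟩
      rcases hxy with h | h
      · exact Or.inl ⟨y, hyk, h.symm⟩
      · exact Or.inr ⟨y, hyk, h.symm⟩
    by_cases hkn : k + 1 < n
    · exact (hC x).2 ⟨k + 1, hkn, hxk⟩
    · have : k + 1 = n := by omega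
      rw [this] at hxk
      exact absurd hxk (hempty x)
  rcases hx2 with h | h
  · exact key _ h (Or.inl (by abel))
  · exact key _ h (Or.inr (by abel))

/-- The cell `x` is healthy in `c`. -/
def healthy (c : (ℤ × ℤ) × Bool × Bool → Bool) (x : ℤ × ℤ) : Prop :=
  ∀ s a : Bool, c (x, s, a) = false

lemma healthy_step {c : (ℤ × ℤ) × Bool × Bool → Bool} {x y z : ℤ × ℤ} (hx : healthy c x)
    (hy : healthy c y) (hz : healthy c z) (hxy : y = x + (1, 0) ∨ y = x + (0, 1))
    (hzx : x = z + (1, 0) ∨ x = z + (0, 1)) : healthy (contaminate G0 c) x := by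
  intro s a
  unfold contaminate
  rw [decide_eq_false_iff_not]
  rintro (h | h)
  · rw [hx s a] at h
    exact absurd h (by decide)
  · have hle : {w | G0.Adj w (x, s, a) ∧ c w = true}.encard ≤ 1 := by
      rw [Set.encard_le_one_iff]
      rintro ⟨u, t, b⟩ ⟨u', t', b'⟩ ⟨h1, h2⟩ ⟨h1', h2'⟩
      have hux : u ≠ x := by
        rintro rfl
        rw [hx t b] at h2
        exact absurd h2 (by decide)
      have hux' : u' ≠ x := by
        rintro rfl
        rw [hx t' b'] at h2'
        exact absurd h2' (by decide)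
      have huy : u ≠ y := by
        rintro rfl
        rw [hy t b] at h2
        exact absurd h2 (by decide)
      have huy' : u' ≠ y := by
        rintro rfl
        rw [hy t' b'] at h2'
        exact absurd h2' (by decide)
      have huz : u ≠ z := by
        rintro rfl
        rw [hz t b] at h2
        exact absurd h2 (by decide)
      have huz' : u' ≠ z := by
        rintro rfl
        rw [hz t' b'] at h2'
        exact absurd h2' (by decide)
      cases s
      · -- incoming vertex: neighbours in cells `x`, `x - e₁`, `x - e₂`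
        cases t
        · exact absurd h1 adj_ff
        cases t'
        · exact absurd h1' adj_ff
        rw [adj_tf] at h1 h1'
        rcases h1 with h1 | ⟨rfl, h1⟩
        · exact absurd h1.symm hux
        rcases h1' with h1' | ⟨rfl, h1'⟩
        · exact absurd h1'.symm hux'
        have : u = u' := by
          rcases h1 with h1 | h1 <;> rcases h1' with h1' | h1' <;> rcases hzx with h3 | h3
          · exact add_right_cancel (h1.symm.trans h1')
          · exact add_right_cancel (h1.symm.trans h1')
          · exact absurd (add_right_cancel (h1.symm.trans h3)) huz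
          · exact absurd (add_right_cancel (h1'.symm.trans h3)) huz'
          · exact absurd (add_right_cancel (h1'.symm.trans h3)) huz'
          · exact absurd (add_right_cancel (h1.symm.trans h3)) huz
          · exact add_right_cancel (h1.symm.trans h1')
          · exact add_right_cancel (h1.symm.trans h1')
        rw [this]
      · cases t
        swap
        · exact absurd h1 adj_tt
        cases t'
        swap
        · exact absurd h1' adj_tt
        rw [adj_ft] at h1 h1'
        rcases h1 with h1 | ⟨rfl, h1⟩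
        · exact absurd h1 hux
        rcases h1' with h1' | ⟨rfl, h1'⟩
        · exact absurd h1' hux'
        have : u = u' := by
          rcases h1 with h1 | h1 <;> rcases h1' with h1' | h1' <;> rcases hxy with h3 | h3
          · exact h1.trans h1'.symm
          · exact h1.trans h1'.symm
          · exact absurd (h1.trans h3.symm) huy
          · exact absurd (h1'.trans h3.symm) huy'
          · exact absurd (h1'.trans h3.symm) huy'
          · exact absurd (h1.trans h3.symm) huy
          · exact h1.trans h1'.symm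
          · exact h1.trans h1'.symm
        rw [this]
    exact absurd (h.trans hle) (by decide)

lemma healthy_iterate {c : (ℤ × ℤ) × Bool × Bool → Bool} : ∀ {n : ℕ} {x : ℤ × ℤ},
    fwd (healthy c) n x → fwd (fun y => healthy c (-y)) n (-x) →
      healthy ((contaminate G0)^[n] c) x := by
  intro n
  induction n with
  | zero => intro x h _; exact h
  | succ n ih =>
    intro x h h'
    rw [Function.iterate_succ_apply']
    -- a forward neighbour
    have hy : ∃ y, (y = x + (1, 0) ∨ y = x + (0, 1)) ∧
        healthy ((contaminate G0)^[n] c) y := by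
      have aux : ∀ y d : ℤ × ℤ, y = x + d → (d = (1, 0) ∨ d = (0, 1)) →
          fwd (healthy c) n y → healthy ((contaminate G0)^[n] c) y := by
        intro y d hyd hd hy
        apply ih hy
        cases n with
        | zero => rw [show fwd _ 0 (-y) = healthy c (- -y) from rfl, neg_neg]; exact hy
        | succ m =>
          refine ⟨?_, ?_⟩
          · rw [show (fun y => healthy c (-y)) (-y) = healthy c (- -y) from rfl, neg_neg]
            exact hy.1
          · have h2 : fwd (fun y => healthy c (-y)) m (-x) := fwd_pred (fwd_pred h')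
            have h3 : -y + d = -x := by rw [hyd]; abel
            rcases hd with rfl | rfl
            · left; rw [h3]; exact h2
            · right; rw [h3]; exact h2
      rcases h.2 with h2 | h2
      · exact ⟨_, Or.inl rfl, aux _ _ rfl (Or.inl rfl) h2⟩
      · exact ⟨_, Or.inr rfl, aux _ _ rfl (Or.inr rfl) h2⟩
    have hz : ∃ z, (x = z + (1, 0) ∨ x = z + (0, 1)) ∧
        healthy ((contaminate G0)^[n] c) z := by
      have aux : ∀ z d : ℤ × ℤ, x = z + d → (d = (1, 0) ∨ d = (0, 1)) →
          fwd (fun y => healthy c (-y)) n (-z) → healthy ((contaminate G0)^[n] c) z := by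
        intro z d hzd hd hz
        refine ih ?_ hz
        have hz0 : healthy c z := by
          have := fwd_self hz
          simpa using this
        cases n with
        | zero => exact hz0
        | succ m =>
          refine ⟨hz0, ?_⟩
          have h2 : fwd (healthy c) m x := fwd_pred (fwd_pred h)
          rcases hd with rfl | rfl
          · left; rw [← hzd]; exact h2
          · right; rw [← hzd]; exact h2
      rcases h'.2 with h2 | h2
      · refine ⟨x - (1, 0), Or.inl (by abel), aux _ (1, 0) (by abel) (Or.inl rfl) ?_⟩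
        rw [neg_sub, sub_eq_neg_add]
        exact h2
      · refine ⟨x - (0, 1), Or.inr (by abel), aux _ (0, 1) (by abel) (Or.inr rfl) ?_⟩
        rw [neg_sub, sub_eq_neg_add]
        exact h2
    obtain ⟨y, hy1, hy2⟩ := hy
    obtain ⟨z, hz1, hz2⟩ := hz
    exact healthy_step (ih (fwd_pred h) (fwd_pred h')) hy2 hz2 hy1 hz1

end paths

section measure

instance (V : Type*) (p : unitInterval) : IsProbabilityMeasure (bern V p) := by
  unfold bern
  infer_instance

lemma bern_true {V : Type*} [DecidableEq V] (p : unitInterval) (T : Finset V) :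
    bern V p {c | ∀ v ∈ T, c v = true} = (toNNReal p : ℝ≥0∞) ^ T.card := by
  have h1 : {c : V → Bool | ∀ v ∈ T, c v = true} = Set.pi T (fun _ => {true}) := by
    ext c
    simp [Set.mem_pi]
  rw [h1]
  unfold bern
  rw [Measure.infinitePi_pi _ (fun i _ => MeasurableSet.singleton true)]
  have h2 : bernoulliMeasure true false p {true} = (toNNReal p : ℝ≥0∞) := by
    classical
    rw [bernoulliMeasure_apply p (MeasurableSet.singleton true)]
    simp
  rw [Finset.prod_congr rfl fun i _ => h2, Finset.prod_const]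

/-- Given cells are all unhealthy with probability at most `(4 p) ^ (number of cells)`. -/
lemma bern_cells (p : unitInterval) (S : Finset (ℤ × ℤ)) (g : ℤ × ℤ → ℤ × ℤ)
    (hg : Function.Injective g) :
    bern ((ℤ × ℤ) × Bool × Bool) p {c | ∀ x ∈ S, ¬ healthy c (g x)} ≤
      (4 * (toNNReal p : ℝ≥0∞)) ^ S.card := by
  classical
  have h1 : {c : (ℤ × ℤ) × Bool × Bool → Bool | ∀ x ∈ S, ¬ healthy c (g x)} ⊆
      ⋃ f : S → Bool × Bool, {c | ∀ v ∈ (Finset.univ : Finset S).image
        (fun x : S => ((g x.1, f x) : (ℤ × ℤ) × Bool × Bool)), c v = true} := by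
    intro c hc
    have h2 : ∀ x : S, ∃ q : Bool × Bool, c (g x.1, q) = true := by
      intro x
      have := hc x.1 x.2
      unfold healthy at this
      push Not at this
      obtain ⟨s, a, h⟩ := this
      exact ⟨(s, a), by simpa using h⟩
    choose f hf using h2
    rw [Set.mem_iUnion]
    refine ⟨f, fun v hv => ?_⟩
    rw [Finset.mem_image] at hv
    obtain ⟨x, -, rfl⟩ := hv
    exact hf x
  calc bern ((ℤ × ℤ) × Bool × Bool) p {c | ∀ x ∈ S, ¬ healthy c (g x)}
      ≤ bern ((ℤ × ℤ) × Bool × Bool) p (⋃ f : S → Bool × Bool,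
        {c | ∀ v ∈ (Finset.univ : Finset S).image
        (fun x : S => ((g x.1, f x) : (ℤ × ℤ) × Bool × Bool)), c v = true}) := measure_mono h1
    _ ≤ ∑ f : S → Bool × Bool, bern ((ℤ × ℤ) × Bool × Bool) p
        {c | ∀ v ∈ (Finset.univ : Finset S).image
        (fun x : S => ((g x.1, f x) : (ℤ × ℤ) × Bool × Bool)), c v = true} :=
        measure_iUnion_fintype_le _ _
    _ = ∑ _f : S → Bool × Bool, (toNNReal p : ℝ≥0∞) ^ S.card := by
        refine Finset.sum_congr rfl fun f _ => ?_
        rw [bern_true, Finset.card_image_of_injective]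
        · simp
        · intro x y hxy
          rw [Prod.mk.injEq] at hxy
          exact Subtype.ext (hg hxy.1)
    _ = (4 * (toNNReal p : ℝ≥0∞)) ^ S.card := by
        rw [Finset.sum_const, nsmul_eq_mul, Finset.card_univ, Fintype.card_fun,
          Fintype.card_coe, mul_pow]
        simp

lemma bern_fwd (p : unitInterval) (hp : (4 * (toNNReal p : ℝ≥0∞)) ≤ (16⁻¹) ^ 4)
    (g : ℤ × ℤ → ℤ × ℤ) (hg : Function.Injective g) :
    bern ((ℤ × ℤ) × Bool × Bool) p {c | ∃ n, ¬ fwd (fun x => healthy c (g x)) n 0} ≤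
      16⁻¹ + 3⁻¹ := by
  classical
  have h1 : {c : (ℤ × ℤ) × Bool × Bool → Bool | ∃ n, ¬ fwd (fun x => healthy c (g x)) n 0} ⊆
      {c | ∀ x ∈ ({0} : Finset (ℤ × ℤ)), ¬ healthy c (g x)} ∪
      ⋃ (L : ℕ), ⋃ (w : Fin (L + 1) → Fin 4), {c | L + 1 ≤ 4 * (cells (L + 1) (ext w)).card ∧
        ∀ x ∈ cells (L + 1) (ext w), ¬ healthy c (g x)} := by
    rintro c ⟨n, hn⟩
    by_cases h0 : healthy c (g 0)
    · right
      obtain ⟨L, w, h2, h3⟩ := contour_of_not_fwd (P := fun x => healthy c (g x)) h0 hn
      exact Set.mem_iUnion.2 ⟨L, Set.mem_iUnion.2 ⟨w, h2, h3⟩⟩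
    · left
      intro x hx
      rw [Finset.mem_singleton] at hx
      rw [hx]
      exact h0
  have h2 : bern ((ℤ × ℤ) × Bool × Bool) p
      {c | ∀ x ∈ ({0} : Finset (ℤ × ℤ)), ¬ healthy c (g x)} ≤ 16⁻¹ := by
    refine (bern_cells p {0} g hg).trans ?_
    rw [Finset.card_singleton, pow_one]
    refine hp.trans ?_
    calc (16⁻¹ : ℝ≥0∞) ^ 4 ≤ (16⁻¹) ^ 1 := by
          apply pow_le_pow_right_of_le_one' _ (by norm_num)
          exact ENNReal.inv_le_one.2 (by norm_num)
      _ = 16⁻¹ := pow_one _
  have h3 : ∀ (L : ℕ) (w : Fin (L + 1) → Fin 4), bern ((ℤ × ℤ) × Bool × Bool) p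
      {c | L + 1 ≤ 4 * (cells (L + 1) (ext w)).card ∧
        ∀ x ∈ cells (L + 1) (ext w), ¬ healthy c (g x)} ≤ (16⁻¹) ^ (L + 1) := by
    intro L w
    by_cases hL : L + 1 ≤ 4 * (cells (L + 1) (ext w)).card
    · calc bern ((ℤ × ℤ) × Bool × Bool) p
              {c | L + 1 ≤ 4 * (cells (L + 1) (ext w)).card ∧
                ∀ x ∈ cells (L + 1) (ext w), ¬ healthy c (g x)}
          ≤ bern ((ℤ × ℤ) × Bool × Bool) p
            {c | ∀ x ∈ cells (L + 1) (ext w), ¬ healthy c (g x)} :=
            measure_mono fun c hc => hc.2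
        _ ≤ (4 * (toNNReal p : ℝ≥0∞)) ^ (cells (L + 1) (ext w)).card := bern_cells p _ g hg
        _ ≤ ((16⁻¹) ^ 4) ^ (cells (L + 1) (ext w)).card := pow_le_pow_left' hp _
        _ = (16⁻¹) ^ (4 * (cells (L + 1) (ext w)).card) := by rw [← pow_mul]
        _ ≤ (16⁻¹) ^ (L + 1) := by
            apply pow_le_pow_right_of_le_one' _ hL
            exact ENNReal.inv_le_one.2 (by norm_num)
    · have : {c : (ℤ × ℤ) × Bool × Bool → Bool | L + 1 ≤ 4 * (cells (L + 1) (ext w)).card ∧
            ∀ x ∈ cells (L + 1) (ext w), ¬ healthy c (g x)} = ∅ := by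
        ext c
        simp [hL]
      rw [this, measure_empty]
      exact zero_le
  have h4 : ∀ L : ℕ, bern ((ℤ × ℤ) × Bool × Bool) p
      (⋃ (w : Fin (L + 1) → Fin 4), {c | L + 1 ≤ 4 * (cells (L + 1) (ext w)).card ∧
        ∀ x ∈ cells (L + 1) (ext w), ¬ healthy c (g x)}) ≤ (4⁻¹) ^ (L + 1) := by
    intro L
    refine (measure_iUnion_fintype_le _ _).trans ?_
    refine (Finset.sum_le_sum fun w _ => h3 L w).trans ?_
    rw [Finset.sum_const, nsmul_eq_mul, Finset.card_univ, Fintype.card_fun, Fintype.card_fin,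
      Fintype.card_fin]
    push_cast
    rw [← mul_pow]
    apply pow_le_pow_left'
    have : (16 : ℝ≥0∞)⁻¹ = 4⁻¹ * 4⁻¹ := by
      rw [← ENNReal.mul_inv (by norm_num) (by norm_num)]
      norm_num
    rw [this, ← mul_assoc, ENNReal.mul_inv_cancel (by norm_num) (by norm_num), one_mul]
  have h5 : bern ((ℤ × ℤ) × Bool × Bool) p
      (⋃ (L : ℕ), ⋃ (w : Fin (L + 1) → Fin 4), {c | L + 1 ≤ 4 * (cells (L + 1) (ext w)).card ∧
        ∀ x ∈ cells (L + 1) (ext w), ¬ healthy c (g x)}) ≤ 3⁻¹ := by
    refine (measure_iUnion_le _).trans ?_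
    refine (ENNReal.tsum_le_tsum h4).trans ?_
    rw [ENNReal.tsum_geometric_add_one]
    have h6 : (1 : ℝ≥0∞) - 4⁻¹ = 3 * 4⁻¹ := by
      have h7 : (1 : ℝ≥0∞) = 4 * 4⁻¹ := (ENNReal.mul_inv_cancel (by norm_num) (by norm_num)).symm
      have h8 : (4 : ℝ≥0∞) * 4⁻¹ = 3 * 4⁻¹ + 4⁻¹ := by
        rw [← add_one_mul]; norm_num
      rw [h7, h8]
      exact ENNReal.add_sub_cancel_right (by simp)
    rw [h6, ENNReal.mul_inv (by simp) (by simp), inv_inv, mul_comm, mul_assoc,
      ENNReal.mul_inv_cancel (by norm_num) (by norm_num), mul_one]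
  calc bern ((ℤ × ℤ) × Bool × Bool) p {c | ∃ n, ¬ fwd (fun x => healthy c (g x)) n 0}
      ≤ _ := measure_mono h1
    _ ≤ _ := measure_union_le _ _
    _ ≤ 16⁻¹ + 3⁻¹ := add_le_add h2 h5

lemma invasion_subset : invasion G0 ⊆
    {c | ∃ n, ¬ fwd (fun x => healthy c (id x)) n 0} ∪
      {c | ∃ n, ¬ fwd (fun x => healthy c (-x)) n 0} := by
  intro c hc
  by_contra hcon
  rw [Set.mem_union, not_or] at hcon
  obtain ⟨h1, h2⟩ := hcon
  rw [Set.mem_ofPred_eq] at h1 h2
  push Not at h1 h2
  obtain ⟨n, hn⟩ := hc (0, true, true)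
  have := healthy_iterate (c := c) (n := n) (x := 0) (h1 n) (by rw [neg_zero]; exact h2 n)
  rw [this true true] at hn
  exact absurd hn (by decide)

end measure

/-- **Theorem.** There is an infinite connected 4-regular simple graph, quasi-isometric to the
square grid and containing no fortress, such that for every density `0 < p ≤ 2 ^ (-18)` the
2-neighbour contamination started from the Bernoulli measure of density `p` does not almost surely
invade the graph. -/
theorem result : ∃ (V : Type) (G : SimpleGraph V), Infinite V ∧ G.Connected ∧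
    (∀ v, (G.neighborSet v).encard = 4) ∧ QuasiIsometric G grid ∧
    (∀ S : Set V, ¬ IsFortress G S) ∧
    ∀ p : unitInterval, 0 < (p : ℝ) → (p : ℝ) ≤ 2⁻¹ ^ 18 → bern V p (invasion G) < 1 := by
  refine ⟨_, G0, inferInstance, G0_connected, regular, G0_qi, no_fortress, ?_⟩
  intro p _ hp
  have hp' : (4 * (toNNReal p : ℝ≥0∞)) ≤ (16⁻¹) ^ 4 := by
    have h1 : (4 * toNNReal p : ℝ≥0) ≤ (16⁻¹) ^ 4 := by
      rw [← NNReal.coe_le_coe]
      push_cast
      have h2 : ((toNNReal p : ℝ≥0) : ℝ) = (p : ℝ) := rfl
      rw [h2]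
      norm_num at hp ⊢
      linarith
    have h3 := ENNReal.coe_le_coe.2 h1
    rw [ENNReal.coe_mul, ENNReal.coe_pow, ENNReal.coe_inv (by norm_num)] at h3
    simpa using h3
  calc bern ((ℤ × ℤ) × Bool × Bool) p (invasion G0)
      ≤ _ := measure_mono invasion_subset
    _ ≤ _ := measure_union_le _ _
    _ ≤ (16⁻¹ + 3⁻¹) + (16⁻¹ + 3⁻¹) :=
        add_le_add (bern_fwd p hp' id Function.injective_id)
          (bern_fwd p hp' (fun x => -x) neg_injective)
    _ < 1 := by
        have h1 : ((16⁻¹ : ℝ≥0∞) + 3⁻¹) + (16⁻¹ + 3⁻¹) =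
            (((16⁻¹ + 3⁻¹) + (16⁻¹ + 3⁻¹) : ℝ≥0) : ℝ≥0∞) := by
          rw [ENNReal.coe_add, ENNReal.coe_add, ENNReal.coe_inv (by norm_num),
            ENNReal.coe_inv (by norm_num)]
          simp
        rw [h1]
        have h2 : ((16⁻¹ + 3⁻¹) + (16⁻¹ + 3⁻¹) : ℝ≥0) < 1 := by
          rw [← NNReal.coe_lt_coe]
          push_cast
          norm_num
        exact_mod_cast h2

end Pool.Agent.Results.MP_38c1f8_pr.InvasionFails
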